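import Pool.Agent.Helper28.MT.Goals

/-!
# Project MT: the key inequality (packet MT-K)
-/

set_option autoImplicit false

namespace Pool.Agent.Helper67.MT

open Finset
open Pool.Agent.Helper55.Rota
open Pool.Agent.Helper28.MT

/-- Counting thresholds. -/
lemma sum_thr (a M : ℕ) (h : a ≤ M) : ∑ m ∈ range M, (if m + 1 ≤ a then 1 else 0) = a := by
  rw [← card_filter]
  have : (range M).filter (fun m => m + 1 ≤ a) = range a := by
    ext m
    simp only [mem_filter, mem_range]
    omega
  rw [this, card_range]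

/-- Counting an interval of thresholds. -/
lemma sum_thr2 (a v M : ℕ) (h : a ≤ M) :
    ∑ m ∈ range M, (if m + 1 ≤ a ∧ ¬ m + 1 ≤ v then 1 else 0) = a - v := by
  rw [← card_filter]
  have : (range M).filter (fun m => m + 1 ≤ a ∧ ¬ m + 1 ≤ v) = Ico v a := by
    ext m
    simp only [mem_filter, mem_range, mem_Ico]
    omega
  rw [this, Nat.card_Ico]

/-- **MT-K**. -/
theorem mt_k : G_W → G_K := by
  intro hW α _ _ R n k b S c hn hloop hk hyp
  -- Rado's condition
  have hrado : ∀ I : Finset (Fin n), I.card ≤ R.r (S ∩ blkU b I) := by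
    intro I
    by_contra hcon
    push Not at hcon
    have hr : R.r (cl R (S ∩ blkU b I)) < I.card := by rwa [r_cl]
    have h1 := hyp I (cl R (S ∩ blkU b I)) (closed_cl R _) hr
    have h2 : S ∩ (blkU b I \ cl R (S ∩ blkU b I)) = ∅ := by
      rw [eq_empty_iff_forall_notMem]
      intro x hx
      rw [mem_inter, mem_sdiff] at hx
      exact hx.2.2 (subset_cl R _ (mem_inter.mpr ⟨hx.1, hx.2.1⟩))
    rw [h2, card_empty, mul_zero, Nat.le_zero, mul_eq_zero] at h1
    omega
  obtain ⟨T, y, v, hO⟩ := hW α R n b S c hn hloop hrado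
  refine ⟨T, y, v, hO, ?_⟩
  obtain ⟨hTS, hT1, hTn, hcl, hle, heq, hlev⟩ := hO
  obtain ⟨M, hMy, hMv⟩ : ∃ M : ℕ, (∀ i, y i ≤ M) ∧ ∀ x, v x ≤ M :=
    ⟨univ.sup y + univ.sup v, fun i => (le_sup (f := y) (mem_univ i)).trans (Nat.le_add_right _ _),
      fun x => (le_sup (f := v) (mem_univ x)).trans (Nat.le_add_left _ _)⟩
  let I : ℕ → Finset (Fin n) := fun m => univ.filter (fun i => m + 1 ≤ y i)
  -- the three sums
  have e1 : ∑ x ∈ T, y (b x) = ∑ m ∈ range M, (I m).card := by
    have h1 : ∑ x ∈ T, y (b x) = ∑ i, y i := by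
      rw [← sum_fiberwise_of_maps_to (s := T) (t := univ) (g := b) (fun x _ => mem_univ _)
        (fun x => y (b x))]
      refine sum_congr rfl fun i _ => ?_
      have h2 : ∑ x ∈ T.filter (fun x => b x = i), y (b x) =
          ∑ x ∈ T.filter (fun x => b x = i), y i :=
        sum_congr rfl fun x hx => by rw [(mem_filter.mp hx).2]
      rw [h2, sum_const, hT1 i, one_smul]
    rw [h1]
    calc ∑ i, y i = ∑ i, ∑ m ∈ range M, (if m + 1 ≤ y i then 1 else 0) :=
          sum_congr rfl fun i _ => (sum_thr _ _ (hMy i)).symm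
      _ = ∑ m ∈ range M, ∑ i, (if m + 1 ≤ y i then 1 else 0) := sum_comm
      _ = ∑ m ∈ range M, (I m).card := sum_congr rfl fun m _ => (card_filter _ _).symm
  have e2 : ∑ x ∈ T, v x = ∑ m ∈ range M, R.r (lev v (m + 1)) := by
    calc ∑ x ∈ T, v x = ∑ x ∈ T, ∑ m ∈ range M, (if m + 1 ≤ v x then 1 else 0) :=
          sum_congr rfl fun x _ => (sum_thr _ _ (hMv x)).symm
      _ = ∑ m ∈ range M, ∑ x ∈ T, (if m + 1 ≤ v x then 1 else 0) := sum_comm
      _ = ∑ m ∈ range M, R.r (lev v (m + 1)) := by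
          refine sum_congr rfl fun m _ => ?_
          rw [← hlev (m + 1), ← card_filter]
          congr 1
          ext x
          simp only [mem_filter, mem_inter, mem_lev]
  have e3 : ∑ x ∈ S, (y (b x) - v x) =
      ∑ m ∈ range M, (S ∩ (blkU b (I m) \ lev v (m + 1))).card := by
    calc ∑ x ∈ S, (y (b x) - v x) = ∑ x ∈ S, ∑ m ∈ range M,
          (if m + 1 ≤ y (b x) ∧ ¬ m + 1 ≤ v x then 1 else 0) :=
          sum_congr rfl fun x _ => (sum_thr2 _ _ _ (hMy (b x))).symm
      _ = ∑ m ∈ range M, ∑ x ∈ S, (if m + 1 ≤ y (b x) ∧ ¬ m + 1 ≤ v x then 1 else 0) := sum_comm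
      _ = ∑ m ∈ range M, (S ∩ (blkU b (I m) \ lev v (m + 1))).card := by
          refine sum_congr rfl fun m _ => ?_
          rw [← card_filter]
          congr 1
          ext x
          simp only [mem_filter, mem_inter, mem_sdiff, mem_blkU, mem_lev, I, mem_univ, true_and]
  have e4 : ∑ x ∈ T, v x + ∑ x ∈ T, c x = ∑ x ∈ T, y (b x) := by
    rw [← sum_add_distrib]
    exact sum_congr rfl fun x hx => (heq x hx).symm
  -- every level
  have key : ∀ m ∈ range M, k * (I m).card ≤
      k * R.r (lev v (m + 1)) + 8 * (S ∩ (blkU b (I m) \ lev v (m + 1))).card := by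
    intro m _
    rcases lt_or_ge (R.r (lev v (m + 1))) (I m).card with h | h
    · have h1 := hyp (I m) (lev v (m + 1)) (hcl (m + 1)) h
      have h2 : k * (I m).card = k * R.r (lev v (m + 1)) +
          k * ((I m).card - R.r (lev v (m + 1))) := by
        rw [← Nat.mul_add, Nat.add_sub_cancel' h.le]
      omega
    · exact (Nat.mul_le_mul_left k h).trans (Nat.le_add_right _ _)
  have hsum := sum_le_sum key
  rw [sum_add_distrib, ← mul_sum, ← mul_sum, ← mul_sum, ← e1, ← e2, ← e3, ← e4] at hsum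
  rw [Nat.mul_add] at hsum
  omega

end Pool.Agent.Helper67.MT
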